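import Pool.Agent.Run7.h697.PD.Main

set_option autoImplicit false

/-! # Algebraic Heegaard diagrams of aspherical `PD_3`-complexes: the isometries -/

namespace Pool.Agent.Run7.h697.PD

open Run7.h312 MonoidAlgebra Matrix

/-- An algebraic Heegaard diagram: an invertible matrix `b` of size `2h`, an isometry of the hyperbolic
form `(0 1; -k 0)` with respect to the involution `bar`, whose block `(1, 2)` is `D₂` and whose
block `(2, 2)` has product `-D₃*` with `D₁`. -/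
def IsDiagram {R : Type*} [Ring R] (bar : R → R) {h : ℕ} (k : ℤ) (D₁ : Matrix (Fin h) Unit R)
    (D₂ : Matrix (Fin h) (Fin h) R) (D₃ : Matrix Unit (Fin h) R) : Prop :=
  ∃ b b' : Matrix (Fin h ⊕ Fin h) (Fin h ⊕ Fin h) R, b * b' = 1 ∧ b' * b = 1 ∧
    b * hyp R k (Fin h) * dualBy bar b = hyp R k (Fin h) ∧
    b.toBlocks₁₂ = D₂ ∧ b.toBlocks₂₂ * D₁ = -dualBy bar D₃

section
variable {R : Type*} [Ring R] [StarRing R] {h : ℕ}

theorem isometry {k : ℤ} (hk : k = 1 ∨ k = -1)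
    (a b : Matrix (Fin h ⊕ Fin h) (Fin h ⊕ Fin h) R)
    (hb : b = hyp R k (Fin h) * aᴴ * hyp R k (Fin h)) (hba : b * a = 1) :
    (b * fromBlocks (-(k • 1)) 0 0 1) * hyp R k (Fin h) * (b * fromBlocks (-(k • 1)) 0 0 1)ᴴ
      = hyp R k (Fin h) := by
  set Ω := hyp R k (Fin h) with hΩ
  have h1 : Ωᴴ = -(k • Ω) := by
    rw [hΩ, hyp, fromBlocks_conjTranspose, fromBlocks_smul, fromBlocks_neg]
    rcases hk with rfl | rfl <;> simp
  have h2 : Ω * Ω = -(k • 1) := by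
    rw [hΩ, hyp, fromBlocks_multiply, ← fromBlocks_one, fromBlocks_smul, fromBlocks_neg]
    rcases hk with rfl | rfl <;> simp
  have h3 : (fromBlocks (-(k • 1)) 0 0 1 : Matrix (Fin h ⊕ Fin h) (Fin h ⊕ Fin h) R) * Ω *
      (fromBlocks (-(k • 1)) 0 0 1)ᴴ = -(k • Ω) := by
    rw [hΩ, hyp, fromBlocks_conjTranspose, fromBlocks_multiply, fromBlocks_multiply,
      fromBlocks_smul, fromBlocks_neg]
    rcases hk with rfl | rfl <;> simp
  have h4 : bᴴ = Ω * a * Ω := by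
    rw [hb, conjTranspose_mul, conjTranspose_mul, conjTranspose_conjTranspose, h1]
    rcases hk with rfl | rfl <;> simp [Matrix.mul_assoc]
  have h5 : b * Ω * bᴴ = -(k • Ω) := by
    rw [h4]
    have : b * Ω * (Ω * a * Ω) = b * (Ω * Ω) * a * Ω := by simp only [Matrix.mul_assoc]
    rw [this, h2, Matrix.mul_neg, Matrix.mul_smul, Matrix.mul_one, Matrix.neg_mul, Matrix.smul_mul,
      hba, Matrix.neg_mul, Matrix.smul_mul, Matrix.one_mul]
  rw [conjTranspose_mul]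
  have h6 : b * fromBlocks (-(k • 1)) 0 0 1 * Ω * ((fromBlocks (-(k • 1)) 0 0 1)ᴴ * bᴴ)
      = b * ((fromBlocks (-(k • 1)) 0 0 1) * Ω * (fromBlocks (-(k • 1)) 0 0 1)ᴴ) * bᴴ := by
    simp only [Matrix.mul_assoc]
  rw [h6, h3, Matrix.mul_neg, Matrix.mul_smul, Matrix.neg_mul, Matrix.smul_mul, h5]
  rcases hk with rfl | rfl <;> simp

end

variable {G : Type} [Group G]

/-- a free special resolution whose numbers of generators are the same, over `F[G]` -/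
theorem diagram_of_heegaard {F : Type*} [CommRing F] {h : ℕ} {k : ℤ} (hk : k = 1 ∨ k = -1)
    {D₁ : Matrix (Fin h) Unit (MonoidAlgebra F G)}
    {D₂ : Matrix (Fin h) (Fin h) (MonoidAlgebra F G)}
    {D₃ : Matrix Unit (Fin h) (MonoidAlgebra F G)}
    (H : IsHeegaard (conjF F G) k D₁ D₂ D₃ 1) : IsDiagram (conjF F G) k D₁ D₂ D₃ := by
  obtain ⟨a, b, hb, hab, hba, h1, h2⟩ := H
  let _ := starRingF F G
  have hd : dualBy (conjF F G) (1 : Matrix (Fin h) (Fin h) (MonoidAlgebra F G)) = 1 :=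
    conjTranspose_one
  rw [hd, fromBlocks_one] at hba
  set S : Matrix (Fin h ⊕ Fin h) (Fin h ⊕ Fin h) (MonoidAlgebra F G) :=
    fromBlocks (-(k • 1)) 0 0 1 with hS
  have hSS : S * S = 1 := by
    rw [hS, fromBlocks_multiply, ← fromBlocks_one]
    rcases hk with rfl | rfl <;> simp
  refine ⟨b * S, S * a, ?_, ?_, ?_, ?_, ?_⟩
  · rw [Matrix.mul_assoc, ← Matrix.mul_assoc S S, hSS, Matrix.one_mul, hba]
  · rw [Matrix.mul_assoc, ← Matrix.mul_assoc a b, hab, Matrix.one_mul, hSS]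
  · exact isometry hk a b hb hba
  · rw [← h1, hS]
    conv_lhs => rw [← fromBlocks_toBlocks b]
    rw [fromBlocks_multiply, toBlocks_fromBlocks₁₂, Matrix.mul_zero, Matrix.mul_one, zero_add]
  · rw [← h2, hS]
    conv_lhs => rw [← fromBlocks_toBlocks b]
    rw [fromBlocks_multiply, toBlocks_fromBlocks₂₂, Matrix.mul_zero, Matrix.mul_one, zero_add]

theorem card_of_heegaard {m n : ℕ} {k : ℤ}
    {D₁ : Matrix (Fin m) Unit (MonoidAlgebra ℚ G)}
    {D₂ : Matrix (Fin n) (Fin m) (MonoidAlgebra ℚ G)}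
    {D₃ : Matrix Unit (Fin n) (MonoidAlgebra ℚ G)}
    (H : IsHeegaard (conjF ℚ G) k D₁ D₂ D₃ 1) : n = m := by
  obtain ⟨a, b, hb, hab, hba, h1, h2⟩ := H
  let _ := starRingF ℚ G
  have hd : dualBy (conjF ℚ G) (1 : Matrix (Fin n) (Fin n) (MonoidAlgebra ℚ G)) = 1 :=
    conjTranspose_one
  rw [hd, fromBlocks_one] at hba
  let φ : MonoidAlgebra ℚ G →+* ℚ := (MonoidAlgebra.lift ℚ ℚ G 1).toRingHom
  have h3 : a.map φ * b.map φ = 1 := by
    rw [← Matrix.map_mul, hab, Matrix.map_one φ (map_zero φ) (map_one φ)]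
  have h4 : b.map φ * a.map φ = 1 := by
    rw [← Matrix.map_mul, hba, Matrix.map_one φ (map_zero φ) (map_one φ)]
  have h5 := (Matrix.toLin'OfInv h3 h4).finrank_eq
  simp only [Module.finrank_fintype_fun_eq_card, Fintype.card_sum, Fintype.card_fin] at h5
  omega

universe u

theorem finish {g n : ℕ} {x : Fin g → G} (hx : Subgroup.closure (Set.range x) = ⊤)
    {d₂ : (Fin n → MonoidAlgebra ℤ G) →ₗ[MonoidAlgebra ℤ G] (Fin g → MonoidAlgebra ℤ G)}
    {q : Fin n → MonoidAlgebra ℤ G} (h : Spec x d₂ q) :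
    ∃ (D₂ : Matrix (Fin g) (Fin g) (MonoidAlgebra ℤ G))
      (D₃ : Matrix Unit (Fin g) (MonoidAlgebra ℤ G)), IsSpecial x D₂ D₃ 1 ∧
      ∃ k : ℤ, (k = 1 ∨ k = -1) ∧ ∀ (F : Type u) [CommRing F] (c : F), 2 * c = 1 →
        IsDiagram (conjF F G) k ((col x).map (bc F G)) (D₂.map (bc F G)) (D₃.map (bc F G)) := by
  obtain ⟨D₂, D₃, hE⟩ := h.toEx hx
  have h1 : ∀ (F : Type u) [CommRing F] (m : ℕ),
      (1 : Matrix (Fin m) (Fin m) (MonoidAlgebra ℤ G)).map (bc F G) = 1 :=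
    fun F _ m => Matrix.map_one (bc F G) (map_zero _) (map_one _)
  have h2 : n = g := by
    obtain ⟨k, -, H⟩ := Ex.heegaard.{0} hE
    have h3 := H ℚ (1 / 2) (by norm_num)
    rw [Matrix.map_one (bc ℚ G) (map_zero _) (map_one _)] at h3
    exact card_of_heegaard h3
  subst h2
  obtain ⟨k, hk, H⟩ := Ex.heegaard.{u} hE
  refine ⟨D₂, D₃, Ex.isSpecial hE, k, hk, fun F _ c hc => diagram_of_heegaard hk ?_⟩
  have h3 := H F c hc
  rw [h1] at h3
  exact h3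

/-- **Algebraic Heegaard diagrams.** -/
theorem main (hG : IsAsphericalPD3 G) {g : ℕ} (x : Fin g → G)
    (hx : Subgroup.closure (Set.range x) = ⊤) :
    ∃ a₀ : ℕ, ∀ a : ℕ, a₀ ≤ a →
      ∃ (D₂ : Matrix (Fin (g + a)) (Fin (g + a)) (MonoidAlgebra ℤ G))
        (D₃ : Matrix Unit (Fin (g + a)) (MonoidAlgebra ℤ G)), IsSpecial (ext x a) D₂ D₃ 1 ∧
        ∃ k : ℤ, (k = 1 ∨ k = -1) ∧ ∀ (F : Type u) [CommRing F] (c : F), 2 * c = 1 →
          IsDiagram (conjF F G) k ((col (ext x a)).map (bc F G)) (D₂.map (bc F G))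
            (D₃.map (bc F G)) := by
  obtain ⟨Q, i1, i2, d₂, q, hf, hp, g3, g4, g5, g6, g7, g8⟩ := exists_mod hG.orientable x hx
  obtain ⟨a₀, b, ⟨φ⟩⟩ := sf_special hG x hx d₂ q g3 g4 g5
  refine ⟨a₀, fun a ha => ?_⟩
  obtain ⟨c, rfl⟩ := Nat.exists_eq_add_of_le ha
  let θ : (Q × (Fin (a₀ + c) → MonoidAlgebra ℤ G)) ≃ₗ[MonoidAlgebra ℤ G]
      (Fin (b + c) → MonoidAlgebra ℤ G) :=
    (((LinearEquiv.prodCongr (LinearEquiv.refl _ Q) (split (MonoidAlgebra ℤ G) a₀ c)).trans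
      (LinearEquiv.prodAssoc _ _ _ _).symm).trans
      (LinearEquiv.prodCongr φ (LinearEquiv.refl _ _))).trans
      (split (MonoidAlgebra ℤ G) b c).symm
  have hx' : Subgroup.closure (Set.range (ext x (a₀ + c))) = ⊤ := by
    refine top_le_iff.1 (hx ▸ Subgroup.closure_mono ?_)
    rintro _ ⟨i, rfl⟩
    exact ⟨Fin.castAdd _ i, Fin.append_left _ _ _⟩
  exact finish hx' (((Spec.mk g3 g4 g5 g6 g7 g8 : Spec x d₂ q).stab (a₀ + c)).trans θ)

end Pool.Agent.Run7.h697.PD
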