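import Pool.Agent.Run7.h697.PD.Stab
import Pool.Agent.Run7.h312.HeegG

set_option autoImplicit false

/-! # Algebraic Heegaard diagrams of aspherical `PD_3`-complexes -/

namespace Pool.Agent.Run7.h697.PD

open Run7.h312 MonoidAlgebra Matrix

/-- `G` is the fundamental group of an orientable aspherical `PD_3`-complex, on the level of chain
complexes: the trivial module `ℤ` has a resolution of finite length by finitely generated FREE
`ℤ[G]`-modules (the cellular chain complex of the universal cover), `H^i(G; ℤ[G])` is zero for `i ≠ 3`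
and is isomorphic to `ℤ` with trivial action of `G` for `i = 3`. -/
def IsAsphericalPD3 (G : Type) [Group G] : Prop :=
  ∃ (C : Cx (MonoidAlgebra ℤ G)) (ε : C.P 0 →+ ℤ)
    (η : (C.P 3 →ₗ[MonoidAlgebra ℤ G] MonoidAlgebra ℤ G) → ℤ),
    (∀ i, Module.Finite (MonoidAlgebra ℤ G) (C.P i)) ∧
    (∀ i, Module.Free (MonoidAlgebra ℤ G) (C.P i)) ∧
    (∃ m : ℕ, ∀ i, m < i → Subsingleton (C.P i)) ∧
    C.IsExact ∧ IsAugmentation C ε ∧ C.IsConcentrated ∧ IsFundamental C η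

variable {G : Type} [Group G]

theorem IsAsphericalPD3.orientable (h : IsAsphericalPD3 G) : IsOrientablePD3 G := by
  obtain ⟨C, ε, η, h1, h2, h3, h4⟩ := h
  exact ⟨C, ε, η, ⟨h1, fun i => by have := h2 i; infer_instance, h3⟩, h4⟩

/-- the module of the special resolution is stably free -/
theorem sf_special (hG : IsAsphericalPD3 G) {g : ℕ} (x : Fin g → G)
    (hx : Subgroup.closure (Set.range x) = ⊤) {Q : Type} [AddCommGroup Q]
    [Module (MonoidAlgebra ℤ G) Q] [Module.Finite (MonoidAlgebra ℤ G) Q]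
    [Module.Projective (MonoidAlgebra ℤ G) Q]
    (d₂ : Q →ₗ[MonoidAlgebra ℤ G] (Fin g → MonoidAlgebra ℤ G)) (q : Q)
    (g3 : ∀ a : MonoidAlgebra ℤ G, a • q = 0 → a = 0)
    (g4 : ∀ y : Q, d₂ y = 0 ↔ ∃ a : MonoidAlgebra ℤ G, y = a • q)
    (g5 : ∀ v : Fin g → MonoidAlgebra ℤ G, D1 x v = 0 ↔ ∃ y, d₂ y = v) :
    SF (MonoidAlgebra ℤ G) Q := by
  obtain ⟨C, ε, η, hfin, hfree, ⟨m, hm⟩, hex, ⟨hε, hεG, h0⟩, ⟨c0, cn⟩, -⟩ := hG
  have hproj : ∀ i, Module.Projective (MonoidAlgebra ℤ G) (C.P i) := fun i => by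
    have := hfree i
    infer_instance
  have hεs := eps_smul ε hεG
  have hex' : ∀ (i : ℕ) (x : C.P (i + 1)), C.d i x = 0 ↔ x ∈ LinearMap.range (C.d (i + 1)) := hex
  have hco : ∀ i, i + 1 ≠ 3 → ∀ f : C.P (i + 1) →ₗ[MonoidAlgebra ℤ G] MonoidAlgebra ℤ G,
      f ∘ₗ C.d (i + 1) = 0 → ∃ h : C.P i →ₗ[MonoidAlgebra ℤ G] MonoidAlgebra ℤ G,
        f = h ∘ₗ C.d i := by
    intro i hi f hf
    obtain ⟨h, hh⟩ := cn i hi f (fun y => LinearMap.congr_fun hf y)
    exact ⟨h, LinearMap.ext hh⟩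
  have htr := trunc C.P C.d m hfin hproj hm hex' hco
  have hK := sf_ker C.P C.d m hfin hfree hm hex' (fun i hi => (htr i hi).1) 1 le_rfl
  let iZ : Module (MonoidAlgebra ℤ G) ℤ := Module.compHom ℤ (aug G)
  let εl : C.P 0 →ₗ[MonoidAlgebra ℤ G] ℤ :=
    { toFun := ε, map_add' := map_add ε, map_smul' := fun a y => hεs a y }
  let al : MonoidAlgebra ℤ G →ₗ[MonoidAlgebra ℤ G] ℤ :=
    { toFun := aug G, map_add' := map_add (aug G), map_smul' := fun a y => map_mul (aug G) a y }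
  have := hproj 0
  have := hproj 1
  have := hproj 2
  have := hfin 0
  have := hfin 1
  have := hfin 2
  have := hfree 0
  have := hfree 1
  have := hfree 2
  have hal : Function.Surjective al := fun n => ⟨n • 1, by
    change aug G (n • 1) = n
    simp⟩
  obtain ⟨φ₁⟩ := schanuel εl al hε hal
  let f₁ : C.P 1 →ₗ[MonoidAlgebra ℤ G] LinearMap.ker εl :=
    (C.d 0).codRestrict (LinearMap.ker εl) fun y => (h0 _).2 ⟨y, rfl⟩
  have hf₁ : Function.Surjective f₁ := by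
    intro y
    obtain ⟨z, hz⟩ := (h0 y.1).1 y.2
    exact ⟨z, Subtype.ext hz⟩
  let g₁ : (Fin g → MonoidAlgebra ℤ G) →ₗ[MonoidAlgebra ℤ G] LinearMap.ker al :=
    (D1 x).codRestrict (LinearMap.ker al) fun v => aug_D1 x v
  have hg₁ : Function.Surjective g₁ := by
    intro y
    obtain ⟨v, hv⟩ := aug_ideal x hx y.1 y.2
    exact ⟨v, Subtype.ext (by
      change D1 x v = y.1
      rw [D1_apply, hv])⟩
  obtain ⟨φ₂⟩ := stab_step f₁ g₁ hf₁ hg₁ φ₁
  have kf₁ : ∀ y, f₁ y = 0 ↔ C.d 0 y = 0 := fun y => Subtype.ext_iff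
  have kg₁ : ∀ y, g₁ y = 0 ↔ D1 x y = 0 := fun y => Subtype.ext_iff
  let f₂ : C.P 2 →ₗ[MonoidAlgebra ℤ G] LinearMap.ker f₁ :=
    (C.d 1).codRestrict (LinearMap.ker f₁) fun y => by
      rw [LinearMap.mem_ker, kf₁]
      exact (hex 0 _).2 ⟨y, rfl⟩
  have hf₂ : Function.Surjective f₂ := by
    intro y
    obtain ⟨z, hz⟩ := (hex 0 y.1).1 ((kf₁ _).1 y.2)
    exact ⟨z, Subtype.ext hz⟩
  let g₂ : Q →ₗ[MonoidAlgebra ℤ G] LinearMap.ker g₁ :=
    d₂.codRestrict (LinearMap.ker g₁) fun y => by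
      rw [LinearMap.mem_ker, kg₁]
      exact (g5 _).2 ⟨y, rfl⟩
  have hg₂ : Function.Surjective g₂ := by
    intro y
    obtain ⟨z, hz⟩ := (g5 y.1).1 ((kg₁ _).1 y.2)
    exact ⟨z, Subtype.ext hz⟩
  obtain ⟨φ₃⟩ := stab_step f₂ g₂ hf₂ hg₂ φ₂
  have kf₂ : LinearMap.ker f₂ = LinearMap.ker (C.d 1) := LinearMap.ker_codRestrict _ _ _
  have kg₂ : LinearMap.ker g₂ = LinearMap.ker d₂ := LinearMap.ker_codRestrict _ _ _
  have e₁ : SF (MonoidAlgebra ℤ G) (LinearMap.ker f₂) := by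
    rw [kf₂]
    exact hK
  have e₂ : SF (MonoidAlgebra ℤ G) (LinearMap.ker g₂) := by
    rw [kg₂]
    let ι : MonoidAlgebra ℤ G →ₗ[MonoidAlgebra ℤ G] LinearMap.ker d₂ :=
      (LinearMap.toSpanSingleton (MonoidAlgebra ℤ G) Q q).codRestrict (LinearMap.ker d₂) fun a =>
        (g4 _).2 ⟨a, rfl⟩
    have hι : Function.Bijective ι := by
      constructor
      · intro a b hab
        have h1 : a • q = b • q := congrArg Subtype.val hab
        exact sub_eq_zero.1 (g3 _ (by rw [sub_smul, h1, sub_self]))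
      · intro y
        obtain ⟨a, ha⟩ := (g4 y.1).1 y.2
        exact ⟨a, Subtype.ext ha.symm⟩
    exact sf_of_equiv (LinearEquiv.ofBijective ι hι).symm sf_free
  have e₃ : SF (MonoidAlgebra ℤ G) (LinearMap.ker f₂ × (Q × (C.P 1 × MonoidAlgebra ℤ G))) := by
    refine sf_of_equiv φ₃ (sf_prod e₂ (sf_prod sf_free (sf_prod sf_free sf_free)))
  have e₄ := sf_cancel e₁ e₃
  have e₅ : SF (MonoidAlgebra ℤ G) ((C.P 1 × MonoidAlgebra ℤ G) × Q) :=
    sf_of_equiv (LinearEquiv.prodComm _ _ _) e₄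
  exact sf_cancel (sf_prod sf_free sf_free) e₅

end Pool.Agent.Run7.h697.PD
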