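import Pool.Agent.Run7.h697.PD.Diag

set_option autoImplicit false

/-! # Algebraic Heegaard diagrams of aspherical `PD_3`-complexes: the theorem -/

namespace Pool.Agent.Run7.h697.PD

open Run7.h312 MonoidAlgebra Matrix

variable {G : Type} [Group G]

/-- the tuple `x` extended by `a` trivial elements -/
def ext {g : ℕ} (x : Fin g → G) (a : ℕ) : Fin (g + a) → G := Fin.append x fun _ => 1

theorem D1_ext {g : ℕ} (x : Fin g → G) (a : ℕ) (v : Fin (g + a) → MonoidAlgebra ℤ G) :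
    D1 (ext x a) v = D1 x (split (MonoidAlgebra ℤ G) g a v).1 := by
  rw [D1_apply, D1_apply, Fin.sum_univ_add]
  have h1 : ∀ i : Fin a, v (Fin.natAdd g i) * (of ℤ G (ext x a (Fin.natAdd g i)) - 1) = 0 := by
    intro i
    rw [ext, Fin.append_right, map_one, sub_self, mul_zero]
  rw [Finset.sum_eq_zero fun i _ => h1 i, add_zero]
  refine Finset.sum_congr rfl fun i _ => ?_
  rw [ext, Fin.append_left]
  rfl

/-- the properties of the special resolution -/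
structure Spec {g : ℕ} (x : Fin g → G) {Q : Type} [AddCommGroup Q]
    [Module (MonoidAlgebra ℤ G) Q]
    (d₂ : Q →ₗ[MonoidAlgebra ℤ G] (Fin g → MonoidAlgebra ℤ G)) (q : Q) : Prop where
  g3 : ∀ a : MonoidAlgebra ℤ G, a • q = 0 → a = 0
  g4 : ∀ y : Q, d₂ y = 0 ↔ ∃ a : MonoidAlgebra ℤ G, y = a • q
  g5 : ∀ v : Fin g → MonoidAlgebra ℤ G, D1 x v = 0 ↔ ∃ y, d₂ y = v
  g6 : ∀ f : (Fin g → MonoidAlgebra ℤ G) →ₗ[MonoidAlgebra ℤ G] MonoidAlgebra ℤ G,
        (∀ y, f (d₂ y) = 0) → ∃ b : MonoidAlgebra ℤ G, ∀ v, f v = D1 x v * b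
  g7 : ∀ f : Q →ₗ[MonoidAlgebra ℤ G] MonoidAlgebra ℤ G, f q = 0 →
        ∃ h : (Fin g → MonoidAlgebra ℤ G) →ₗ[MonoidAlgebra ℤ G] MonoidAlgebra ℤ G,
          ∀ y, f y = h (d₂ y)
  g8 : ∀ a : MonoidAlgebra ℤ G, aug G a = 0 ↔
        ∃ f : Q →ₗ[MonoidAlgebra ℤ G] MonoidAlgebra ℤ G, f q = a

section
variable {g : ℕ} {x : Fin g → G} {Q : Type} [AddCommGroup Q] [Module (MonoidAlgebra ℤ G) Q]
    {d₂ : Q →ₗ[MonoidAlgebra ℤ G] (Fin g → MonoidAlgebra ℤ G)} {q : Q}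

theorem Spec.stab (h : Spec x d₂ q) (a : ℕ) :
    Spec (ext x a) (Q := Q × (Fin a → MonoidAlgebra ℤ G))
      ((split (MonoidAlgebra ℤ G) g a).symm.toLinearMap ∘ₗ
        d₂.prodMap (LinearMap.id : (Fin a → MonoidAlgebra ℤ G) →ₗ[MonoidAlgebra ℤ G] _)) (q, 0) := by
  set σ := split (MonoidAlgebra ℤ G) g a with hσ
  have hd : ∀ y : Q × (Fin a → MonoidAlgebra ℤ G), (σ.symm.toLinearMap ∘ₗ
      d₂.prodMap (LinearMap.id : (Fin a → MonoidAlgebra ℤ G) →ₗ[MonoidAlgebra ℤ G] _)) y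
      = σ.symm (d₂ y.1, y.2) := fun y => rfl
  constructor
  · intro c hc
    exact h.g3 c (congrArg Prod.fst hc)
  · intro y
    rw [hd, LinearEquiv.map_eq_zero_iff]
    constructor
    · intro h1
      obtain ⟨c, hc⟩ := (h.g4 y.1).1 (congrArg Prod.fst h1)
      refine ⟨c, Prod.ext hc ?_⟩
      have h2 : y.2 = 0 := congrArg Prod.snd h1
      rw [h2]
      exact (smul_zero c).symm
    · rintro ⟨c, rfl⟩
      refine Prod.ext ((h.g4 _).2 ⟨c, rfl⟩) ?_
      exact smul_zero c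
  · intro v
    rw [D1_ext, h.g5]
    constructor
    · rintro ⟨y, hy⟩
      refine ⟨(y, (σ v).2), ?_⟩
      rw [hd, LinearEquiv.symm_apply_eq]
      exact Prod.ext hy rfl
    · rintro ⟨y, rfl⟩
      refine ⟨y.1, ?_⟩
      rw [hd, ← hσ, LinearEquiv.apply_symm_apply]
  · intro f hf
    obtain ⟨b, hb⟩ := h.g6 ((f ∘ₗ σ.symm.toLinearMap) ∘ₗ LinearMap.inl _ _ _) (fun y => by
      have := hf (y, 0)
      rw [hd] at this
      exact this)
    refine ⟨b, fun v => ?_⟩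
    rw [D1_ext, ← hb]
    have h1 : f v = f (σ.symm ((σ v).1, 0)) + f (σ.symm (0, (σ v).2)) := by
      rw [← map_add, ← map_add]
      congr 1
      rw [Prod.mk_add_mk, add_zero, zero_add, Prod.mk.eta, LinearEquiv.symm_apply_apply]
    have h2 : f (σ.symm (0, (σ v).2)) = 0 := by
      have := hf (0, (σ v).2)
      rw [hd, map_zero] at this
      exact this
    rw [h1, h2, add_zero]
    rfl
  · intro f hf
    obtain ⟨k, hk⟩ := h.g7 (f ∘ₗ LinearMap.inl _ _ _) hf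
    refine ⟨k ∘ₗ LinearMap.fst _ _ _ ∘ₗ σ.toLinearMap +
      (f ∘ₗ LinearMap.inr _ _ _) ∘ₗ LinearMap.snd _ _ _ ∘ₗ σ.toLinearMap, fun y => ?_⟩
    rw [hd, LinearMap.add_apply]
    simp only [LinearMap.comp_apply, LinearEquiv.coe_coe, LinearEquiv.apply_symm_apply,
      LinearMap.fst_apply, LinearMap.snd_apply]
    rw [← hk, LinearMap.comp_apply, ← map_add, LinearMap.inl_apply, LinearMap.inr_apply,
      Prod.mk_add_mk, add_zero, zero_add]
  · intro c
    rw [h.g8]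
    constructor
    · rintro ⟨f, hf⟩
      exact ⟨f ∘ₗ LinearMap.fst _ _ _, hf⟩
    · rintro ⟨f, hf⟩
      exact ⟨f ∘ₗ LinearMap.inl _ _ _, hf⟩

theorem Spec.trans (h : Spec x d₂ q) {Q' : Type} [AddCommGroup Q']
    [Module (MonoidAlgebra ℤ G) Q'] (θ : Q ≃ₗ[MonoidAlgebra ℤ G] Q') :
    Spec x (d₂ ∘ₗ θ.symm.toLinearMap) (θ q) := by
  constructor
  · intro c hc
    rw [← map_smul, LinearEquiv.map_eq_zero_iff] at hc
    exact h.g3 c hc
  · intro y
    refine (h.g4 (θ.symm y)).trans (exists_congr fun c => ?_)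
    rw [LinearEquiv.symm_apply_eq, map_smul]
  · intro v
    rw [h.g5]
    constructor
    · rintro ⟨y, hy⟩
      refine ⟨θ y, ?_⟩
      rw [LinearMap.comp_apply, LinearEquiv.coe_coe, LinearEquiv.symm_apply_apply, hy]
    · rintro ⟨y, hy⟩
      exact ⟨θ.symm y, hy⟩
  · intro f hf
    refine h.g6 f fun y => ?_
    have := hf (θ y)
    rw [LinearMap.comp_apply, LinearEquiv.coe_coe, LinearEquiv.symm_apply_apply] at this
    exact this
  · intro f hf
    obtain ⟨k, hk⟩ := h.g7 (f ∘ₗ θ.toLinearMap) hf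
    refine ⟨k, fun y => ?_⟩
    have := hk (θ.symm y)
    rw [LinearMap.comp_apply, LinearEquiv.coe_coe, LinearEquiv.apply_symm_apply] at this
    exact this
  · intro c
    rw [h.g8]
    constructor
    · rintro ⟨f, hf⟩
      refine ⟨f ∘ₗ θ.symm.toLinearMap, ?_⟩
      rw [LinearMap.comp_apply, LinearEquiv.coe_coe, LinearEquiv.symm_apply_apply, hf]
    · rintro ⟨f, hf⟩
      exact ⟨f ∘ₗ θ.toLinearMap, hf⟩

end

/-- the matrix form, for a free module in degree `2` -/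
theorem Spec.toEx {g n : ℕ} {x : Fin g → G} (hx : Subgroup.closure (Set.range x) = ⊤)
    {d₂ : (Fin n → MonoidAlgebra ℤ G) →ₗ[MonoidAlgebra ℤ G] (Fin g → MonoidAlgebra ℤ G)}
    {q : Fin n → MonoidAlgebra ℤ G} (h : Spec x d₂ q) :
    letI := starRing G
    ∃ (D₂ : Matrix (Fin n) (Fin g) (MonoidAlgebra ℤ G))
      (D₃ : Matrix Unit (Fin n) (MonoidAlgebra ℤ G)),
      Ex (aug G) (col x) D₂ D₃ (1 : Matrix (Fin n) (Fin n) (MonoidAlgebra ℤ G)) := by
  obtain ⟨D₂, hD₂⟩ : ∃ D₂ : Matrix (Fin n) (Fin g) (MonoidAlgebra ℤ G),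
    D₂ = Matrix.of fun i => d₂ (Pi.single i 1) := ⟨_, rfl⟩
  obtain ⟨D₃, hD₃⟩ : ∃ D₃ : Matrix Unit (Fin n) (MonoidAlgebra ℤ G),
    D₃ = Matrix.of fun _ => q := ⟨_, rfl⟩
  have vD₂ : ∀ v, v ᵥ* D₂ = d₂ v := fun v => by rw [hD₂, lin_vecMul]
  have vD₃ : ∀ a : Unit → MonoidAlgebra ℤ G, a ᵥ* D₃ = a () • q := fun a => by
    rw [hD₃]
    ext1 j
    rw [Matrix.vecMul, dotProduct, Fintype.sum_unique]
    rfl
  have D₂i : ∀ i, D₂ i = d₂ (Pi.single i 1) := fun i => by rw [hD₂]; rfl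
  have D₃i : ∀ i, D₃ i = q := fun i => by rw [hD₃]; rfl
  have cl : ∀ i, col x i () = of ℤ G (x i) - 1 := fun i => rfl
  refine ⟨D₂, D₃, ?_⟩
  let _ := starRing G
  refine
    { aug_star := aug_conj
      ee := Matrix.mul_one _
      eD₂ := Matrix.one_mul _
      D₃e := Matrix.mul_one _
      D₂D₁ := ?_
      D₃D₂ := ?_
      aD₁ := fun i => by rw [cl, map_sub, aug_of, map_one, sub_self]
      aD₃ := ?_
      r0 := fun a ha => ?_
      r1 := fun v hv => ?_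
      r2 := fun w hw hw2 => ?_
      r3 := fun a ha => ?_
      c1 := fun c hc => ?_
      c2 := fun c hc hc2 => ?_
      c3 := fun a ha => ?_ }
  · refine funext fun i => ?_
    rw [Matrix.mul_apply_eq_vecMul, vecMul_col, D₂i, (h.g5 _).2 ⟨_, rfl⟩]
    rfl
  · refine funext fun i => ?_
    rw [Matrix.mul_apply_eq_vecMul, vD₂, D₃i, (h.g4 q).2 ⟨1, (one_smul _ q).symm⟩]
    rfl
  · intro j
    rw [D₃i]
    exact (h.g8 _).2 ⟨LinearMap.proj j, rfl⟩
  · obtain ⟨v, hv⟩ := aug_ideal x hx a ha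
    exact ⟨v, by rw [vecMul_col, D1_apply, hv]⟩
  · obtain ⟨y, rfl⟩ := (h.g5 v).1 (by
      rw [vecMul_col] at hv
      exact congrFun hv ())
    exact ⟨y, vD₂ y⟩
  · rw [vD₂] at hw2
    obtain ⟨a, ha⟩ := (h.g4 _).1 hw2
    refine ⟨fun _ => a, ?_⟩
    rw [vD₃, ← ha]
  · rw [vD₃] at ha
    ext1 i
    exact h.g3 _ ha
  · obtain ⟨b, hb⟩ := h.g6 (Fintype.linearCombination (MonoidAlgebra ℤ G) c) (fun y => by
      have h2 : (y ᵥ* D₂) ⬝ᵥ c = 0 := by
        rw [← Matrix.dotProduct_mulVec, hc, dotProduct_zero]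
      rw [vD₂] at h2
      rw [Fintype.linearCombination_apply]
      exact h2)
    refine ⟨fun _ => b, ?_⟩
    ext1 i
    have h3 := hb (Pi.single i 1)
    rw [Fintype.linearCombination_apply_single, one_smul, D1,
      Fintype.linearCombination_apply_single, one_smul] at h3
    rw [h3, Matrix.mulVec, dotProduct, Fintype.sum_unique]
    rfl
  · obtain ⟨k, hk⟩ := h.g7 (Fintype.linearCombination (MonoidAlgebra ℤ G) c) (by
      rw [Fintype.linearCombination_apply, ← D₃i ()]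
      exact congrFun hc2 ())
    refine ⟨fun j => k (Pi.single j 1), ?_⟩
    ext1 i
    have h1 := hk (Pi.single i 1)
    rw [← D₂i, ← lin_dot k, Fintype.linearCombination_apply_single, one_smul] at h1
    rw [h1]
    rfl
  · obtain ⟨f, hf⟩ := (h.g8 a).1 ha
    refine ⟨fun j => f (Pi.single j 1), ?_⟩
    change D₃ () ⬝ᵥ _ = a
    rw [lin_dot, D₃i, hf]

end Pool.Agent.Run7.h697.PD
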