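import Pool.Agent.Run7.h312.Res2

set_option autoImplicit false

/-! # Stably free modules and the lemma of Schanuel -/

namespace Pool.Agent.Run7.h697.PD

open Run7.h312

/-- stably free -/
def SF (R M : Type) [Ring R] [AddCommGroup M] [Module R M] : Prop :=
  ∃ a b : ℕ, Nonempty ((M × (Fin a → R)) ≃ₗ[R] (Fin b → R))

section
variable {R : Type} [Ring R]

/-- `R^(b + c) = R^b × R^c` -/
def split (R : Type) [Ring R] (b c : ℕ) : (Fin (b + c) → R) ≃ₗ[R] (Fin b → R) × (Fin c → R) :=
  (LinearEquiv.funCongrLeft R R finSumFinEquiv).trans (LinearEquiv.sumArrowLequivProdArrow _ _ R R)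

variable {M N A B X Y : Type} [AddCommGroup M] [Module R M] [AddCommGroup N] [Module R N]
  [AddCommGroup A] [Module R A] [AddCommGroup B] [Module R B] [AddCommGroup X] [Module R X]
  [AddCommGroup Y] [Module R Y]

theorem sf_of_equiv (e : M ≃ₗ[R] N) (h : SF R N) : SF R M := by
  obtain ⟨a, b, ⟨φ⟩⟩ := h
  exact ⟨a, b, ⟨(LinearEquiv.prodCongr e (LinearEquiv.refl R _)).trans φ⟩⟩

theorem sf_fin (n : ℕ) : SF R (Fin n → R) := ⟨0, n, ⟨LinearEquiv.prodUnique⟩⟩

theorem sf_free [Module.Free R M] [Module.Finite R M] : SF R M := by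
  rcases subsingleton_or_nontrivial R with h | h
  · have : Subsingleton M := Module.subsingleton R M
    exact ⟨0, 0, ⟨0⟩⟩
  · have b := Module.Free.chooseBasis R M
    have : Fintype (Module.Free.ChooseBasisIndex R M) := Module.Free.ChooseBasisIndex.fintype R M
    let e := Fintype.equivFin (Module.Free.ChooseBasisIndex R M)
    exact sf_of_equiv (b.equivFun.trans (LinearEquiv.funCongrLeft R R e.symm)) (sf_fin _)

theorem sf_prod (hM : SF R M) (hN : SF R N) : SF R (M × N) := by
  obtain ⟨a, b, ⟨φ⟩⟩ := hM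
  obtain ⟨c, d, ⟨ψ⟩⟩ := hN
  let ρ : ((M × N) × ((Fin a → R) × (Fin c → R))) ≃ₗ[R] (M × (Fin a → R)) × (N × (Fin c → R)) :=
    { toFun := fun p => ((p.1.1, p.2.1), (p.1.2, p.2.2))
      invFun := fun p => ((p.1.1, p.2.1), (p.1.2, p.2.2))
      map_add' := fun _ _ => rfl
      map_smul' := fun _ _ => rfl
      left_inv := fun _ => rfl
      right_inv := fun _ => rfl }
  exact ⟨a + c, b + d, ⟨(LinearEquiv.prodCongr (LinearEquiv.refl R _) (split R a c)).trans
    (ρ.trans ((LinearEquiv.prodCongr φ ψ).trans (split R b d).symm))⟩⟩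

theorem sf_cancel (hM : SF R M) (h : SF R (M × N)) : SF R N := by
  obtain ⟨a, b, ⟨φ⟩⟩ := hM
  obtain ⟨c, d, ⟨ψ⟩⟩ := h
  let ρ : (N × ((M × (Fin a → R)) × (Fin c → R))) ≃ₗ[R] ((M × N) × (Fin c → R)) × (Fin a → R) :=
    { toFun := fun p => (((p.2.1.1, p.1), p.2.2), p.2.1.2)
      invFun := fun p => (p.1.1.2, ((p.1.1.1, p.2), p.1.2))
      map_add' := fun _ _ => rfl
      map_smul' := fun _ _ => rfl
      left_inv := fun _ => rfl
      right_inv := fun _ => rfl }
  exact ⟨b + c, d + a, ⟨(LinearEquiv.prodCongr (LinearEquiv.refl R _)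
    ((split R b c).trans (LinearEquiv.prodCongr φ.symm (LinearEquiv.refl R _)))).trans
    (ρ.trans ((LinearEquiv.prodCongr ψ (LinearEquiv.refl R _)).trans (split R d a).symm))⟩⟩

theorem schanuel [Module.Projective R M] [Module.Projective R N] (f : M →ₗ[R] A) (g : N →ₗ[R] A)
    (hf : Function.Surjective f) (hg : Function.Surjective g) :
    Nonempty ((LinearMap.ker f × N) ≃ₗ[R] (LinearMap.ker g × M)) := by
  obtain ⟨s, hs⟩ := Module.projective_lifting_property f g hf
  obtain ⟨t, ht⟩ := Module.projective_lifting_property g f hg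
  have hs' : ∀ n, f (s n) = g n := fun n => LinearMap.congr_fun hs n
  have ht' : ∀ m, g (t m) = f m := fun m => LinearMap.congr_fun ht m
  refine ⟨{ toFun := fun p => (⟨p.2 - t (p.1 + s p.2), ?_⟩, p.1 + s p.2)
            invFun := fun p => (⟨p.2 - s (p.1 + t p.2), ?_⟩, p.1 + t p.2)
            map_add' := ?_
            map_smul' := ?_
            left_inv := ?_
            right_inv := ?_ }⟩
  · rw [LinearMap.mem_ker, map_sub, ht', map_add, hs', LinearMap.mem_ker.1 p.1.2, zero_add, sub_self]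
  · intro p p'
    refine Prod.ext (Subtype.ext ?_) ?_
    · simp only [Prod.fst_add, Prod.snd_add, Submodule.coe_add, map_add]
      abel
    · simp only [Prod.fst_add, Prod.snd_add, Submodule.coe_add, map_add]
      abel
  · intro c p
    refine Prod.ext (Subtype.ext ?_) ?_
    · simp only [Prod.smul_fst, Prod.smul_snd, Submodule.coe_smul, map_smul, ← smul_add,
        RingHom.id_apply, smul_sub]
    · simp only [Prod.smul_fst, Prod.smul_snd, Submodule.coe_smul, map_smul, ← smul_add,
        RingHom.id_apply]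
  · rw [LinearMap.mem_ker, map_sub, hs', map_add, ht', LinearMap.mem_ker.1 p.1.2, zero_add, sub_self]
  · intro p
    refine Prod.ext (Subtype.ext ?_) ?_
    · simp
    · simp
  · intro p
    refine Prod.ext (Subtype.ext ?_) ?_
    · simp
    · simp

/-- the kernel of `φ ∘ (f × id)` -/
def kerProd (f : M →ₗ[R] A) (φ : (A × X) ≃ₗ[R] B) :
    LinearMap.ker (φ.toLinearMap ∘ₗ f.prodMap (LinearMap.id : X →ₗ[R] X)) ≃ₗ[R] LinearMap.ker f where
  toFun p := ⟨p.1.1, by
    have h := p.2
    rw [LinearMap.mem_ker] at h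
    have h2 : (f p.1.1, p.1.2) = 0 := φ.map_eq_zero_iff.1 h
    exact congrArg Prod.fst h2⟩
  invFun m := ⟨(m.1, 0), by
    rw [LinearMap.mem_ker]
    have h : f m.1 = 0 := m.2
    change φ (f m.1, 0) = 0
    rw [h]
    exact map_zero φ⟩
  map_add' _ _ := rfl
  map_smul' _ _ := rfl
  left_inv p := by
    refine Subtype.ext (Prod.ext rfl ?_)
    have h := p.2
    rw [LinearMap.mem_ker] at h
    have h2 : (f p.1.1, p.1.2) = 0 := φ.map_eq_zero_iff.1 h
    exact (congrArg Prod.snd h2).symm
  right_inv _ := rfl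

theorem stab_step [Module.Projective R M] [Module.Projective R N] [Module.Projective R X]
    [Module.Projective R Y] (f : M →ₗ[R] A) (g : N →ₗ[R] B) (hf : Function.Surjective f)
    (hg : Function.Surjective g) (φ : (A × X) ≃ₗ[R] (B × Y)) :
    Nonempty ((LinearMap.ker f × (N × Y)) ≃ₗ[R] (LinearMap.ker g × (M × X))) := by
  obtain ⟨ψ⟩ := schanuel (φ.toLinearMap ∘ₗ f.prodMap (LinearMap.id : X →ₗ[R] X))
    ((LinearEquiv.refl R (B × Y)).toLinearMap ∘ₗ g.prodMap (LinearMap.id : Y →ₗ[R] Y))
    (φ.surjective.comp (hf.prodMap Function.surjective_id))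
    ((LinearEquiv.refl R (B × Y)).surjective.comp (hg.prodMap Function.surjective_id))
  exact ⟨((LinearEquiv.prodCongr (kerProd f φ) (LinearEquiv.refl R _)).symm.trans ψ).trans
    (LinearEquiv.prodCongr (kerProd g (LinearEquiv.refl R (B × Y))) (LinearEquiv.refl R _))⟩

theorem sf_of_sur [Module.Projective R M] [Module.Projective R N] (f : M →ₗ[R] N)
    (hf : Function.Surjective f) (hM : SF R M) (hk : SF R (LinearMap.ker f)) : SF R N := by
  obtain ⟨ψ⟩ := schanuel f (LinearMap.id : N →ₗ[R] N) hf Function.surjective_id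
  refine sf_cancel hk (sf_of_equiv ψ ?_)
  refine sf_prod ?_ hM
  have : Subsingleton (LinearMap.ker (LinearMap.id : N →ₗ[R] N)) := by
    rw [LinearMap.ker_id]
    infer_instance
  exact sf_free

end

/-- the syzygies of a finite free resolution are stably free -/
theorem sf_ker {R : Type} [Ring R] (P : ℕ → Type) [∀ i, AddCommGroup (P i)] [∀ i, Module R (P i)]
    (d : ∀ i, P (i + 1) →ₗ[R] P i) (m : ℕ) (hfin : ∀ i, Module.Finite R (P i))
    (hfree : ∀ i, Module.Free R (P i)) (hm : ∀ i, m < i → Subsingleton (P i))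
    (hex : ∀ (i : ℕ) (x : P (i + 1)), d i x = 0 ↔ x ∈ LinearMap.range (d (i + 1)))
    (hproj : ∀ i, 1 ≤ i → Module.Projective R (LinearMap.ker (d i))) :
    ∀ i, 1 ≤ i → SF R (LinearMap.ker (d i)) := by
  have key : ∀ k i, 1 ≤ i → m ≤ i + k → SF R (LinearMap.ker (d i)) := by
    intro k
    induction k with
    | zero =>
      intro i _ hi
      have := hm (i + 1) (by omega)
      have : Subsingleton (LinearMap.ker (d i)) := inferInstance
      exact sf_free
    | succ k ih =>
      intro i hi hik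
      let D : P (i + 1 + 1) →ₗ[R] LinearMap.ker (d i) :=
        (d (i + 1)).codRestrict (LinearMap.ker (d i)) (fun c => by
          rw [LinearMap.mem_ker, hex]; exact ⟨c, rfl⟩)
      have := hproj i hi
      have := hfin (i + 1 + 1)
      have := hfree (i + 1 + 1)
      refine sf_of_sur D (fun x => ?_) sf_free ?_
      · obtain ⟨y, hy⟩ := (hex i (x : P (i + 1))).1 x.2
        exact ⟨y, Subtype.ext hy⟩
      · have h1 : LinearMap.ker D = LinearMap.ker (d (i + 1)) := LinearMap.ker_codRestrict _ _ _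
        rw [h1]
        exact ih (i + 1) (by omega) (by omega)
  intro i hi
  exact key m i hi (by omega)

end Pool.Agent.Run7.h697.PD
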